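import Pool.Agent.Helper38.EC.Goals

/-!
# MP_ecc237_nt, Part I, packet FB
-/

set_option autoImplicit false

open MeasureTheory Filter Topology Set Complex

namespace Pool.Agent.Helper32.EC.I_FB

open EC237 EC237.PI

theorem Qd_slit {z : ℂ} (hz : z ∈ Qd) : z ∈ slitPlane := by
  rw [Complex.mem_slitPlane_iff]
  obtain ⟨h1, h2, h3⟩ := hz
  rcases h1.eq_or_lt with h | h
  · right
    intro h4
    exact h3 (Complex.ext h.symm h4)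
  · exact Or.inl h

theorem Qo_Qd {z : ℂ} (hz : z ∈ Qo) : z ∈ Qd := by
  refine ⟨hz.1.le, hz.2.le, fun h => ?_⟩
  have := hz.1
  rw [h] at this
  simp at this

theorem diffAt (sera : G_SERA) (wr : G_WR) (b : ℕ) (p : ℤ) {z : ℂ} (hz : z ∈ Qd) :
    DifferentiableAt ℂ (fb b p) z := by
  have h1 : DifferentiableAt ℂ Kc z := (wr.1 z (Qd_slit hz)).1
  have h2 : DifferentiableAt ℂ Ic z := sera.1 z
  have h3 : DifferentiableAt ℂ (fun z : ℂ => z ^ p) z :=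
    differentiableAt_zpow.2 (Or.inl hz.2.2)
  exact ((h1.pow b).mul (h2.pow (6 - b))).mul h3

theorem norm_fb (b : ℕ) (p : ℤ) (z : ℂ) :
    ‖fb b p z‖ = ‖Kc z‖ ^ b * ‖Ic z‖ ^ (6 - b) * ‖z‖ ^ p := by
  unfold fb
  rw [norm_mul, norm_mul, norm_pow, norm_pow, norm_zpow]

theorem large (kbd : G_KBD) {C : ℝ} (hC : ∀ z ∈ Qd, ‖Ic z‖ * Real.sqrt ‖z‖ ≤ C * Real.exp z.re)
    {b : ℕ} (hb : b ≤ 6) {z : ℂ} (hz : z ∈ Qd) :
    ‖Kc z‖ ^ b * ‖Ic z‖ ^ (6 - b) * ‖z‖ ^ 3 ≤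
      (max C 2) ^ 6 * Real.exp ((6 - 2 * (b:ℝ)) * z.re) := by
  have hs : Real.sqrt ‖z‖ ^ 6 = ‖z‖ ^ 3 := by
    calc Real.sqrt ‖z‖ ^ 6 = (Real.sqrt ‖z‖ ^ 2) ^ 3 := by ring
      _ = _ := by rw [Real.sq_sqrt (norm_nonneg _)]
  have hM : (2:ℝ) ≤ max C 2 := le_max_right _ _
  have h1 : (‖Kc z‖ * Real.sqrt ‖z‖) ^ b ≤ (max C 2 * Real.exp (-z.re)) ^ b := by
    refine pow_le_pow_left₀ (by positivity) ?_ _
    exact (kbd z hz.1 hz.2.2).trans (mul_le_mul_of_nonneg_right hM (Real.exp_pos _).le)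
  have h2 : (‖Ic z‖ * Real.sqrt ‖z‖) ^ (6 - b) ≤ (max C 2 * Real.exp z.re) ^ (6 - b) := by
    refine pow_le_pow_left₀ (by positivity) ?_ _
    exact (hC z hz).trans (mul_le_mul_of_nonneg_right (le_max_left _ _) (Real.exp_pos _).le)
  have h3 := mul_le_mul h1 h2 (by positivity) (by positivity)
  have h6 : b + (6 - b) = 6 := by omega
  have e1 : (‖Kc z‖ * Real.sqrt ‖z‖) ^ b * (‖Ic z‖ * Real.sqrt ‖z‖) ^ (6 - b) =
      ‖Kc z‖ ^ b * ‖Ic z‖ ^ (6 - b) * ‖z‖ ^ 3 := by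
    rw [mul_pow, mul_pow, ← hs]
    calc ‖Kc z‖ ^ b * Real.sqrt ‖z‖ ^ b * (‖Ic z‖ ^ (6 - b) * Real.sqrt ‖z‖ ^ (6 - b))
        = ‖Kc z‖ ^ b * ‖Ic z‖ ^ (6 - b) * (Real.sqrt ‖z‖ ^ b * Real.sqrt ‖z‖ ^ (6 - b)) := by ring
      _ = _ := by rw [← pow_add, h6]
  have e2 : (max C 2 * Real.exp (-z.re)) ^ b * (max C 2 * Real.exp z.re) ^ (6 - b) =
      (max C 2) ^ 6 * Real.exp ((6 - 2 * (b:ℝ)) * z.re) := by
    rw [mul_pow, mul_pow, ← Real.exp_nat_mul, ← Real.exp_nat_mul]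
    calc (max C 2) ^ b * Real.exp ((b:ℝ) * -z.re) *
          ((max C 2) ^ (6 - b) * Real.exp (((6 - b : ℕ) : ℝ) * z.re))
        = ((max C 2) ^ b * (max C 2) ^ (6 - b)) *
          (Real.exp ((b:ℝ) * -z.re) * Real.exp (((6 - b : ℕ) : ℝ) * z.re)) := by ring
      _ = _ := by
        rw [← pow_add, h6, ← Real.exp_add]
        congr 2
        rw [Nat.cast_sub hb]
        push_cast
        ring
  rw [e1, e2] at h3
  exact h3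

theorem small {C : ℝ} (hC : ∀ z ∈ Qd, ‖z‖ ≤ 1 → ‖Ic z‖ ≤ 2 ∧
    ‖Kc z‖ ≤ C * ‖z‖ ^ (-(1 / 24) : ℝ))
    {b : ℕ} (hb : b ≤ 6) {z : ℂ} (hz : z ∈ Qd) (hz1 : ‖z‖ ≤ 1) :
    ‖Kc z‖ ^ b * ‖Ic z‖ ^ (6 - b) ≤ (max C 2) ^ 6 * ‖z‖ ^ (-(1 / 4) : ℝ) := by
  have hz0 : 0 < ‖z‖ := norm_pos_iff.2 hz.2.2
  obtain ⟨hI, hK⟩ := hC z hz hz1
  have hM : (2:ℝ) ≤ max C 2 := le_max_right _ _
  have h1 : ‖Kc z‖ ^ b ≤ (max C 2 * ‖z‖ ^ (-(1 / 24) : ℝ)) ^ b := by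
    refine pow_le_pow_left₀ (norm_nonneg _) (hK.trans ?_) _
    exact mul_le_mul_of_nonneg_right (le_max_left _ _) (by positivity)
  have h2 : ‖Ic z‖ ^ (6 - b) ≤ (max C 2) ^ (6 - b) :=
    pow_le_pow_left₀ (norm_nonneg _) (hI.trans hM) _
  have h3 := mul_le_mul h1 h2 (by positivity) (by positivity)
  have h6 : b + (6 - b) = 6 := by omega
  have h4 : (‖z‖ ^ (-(1 / 24) : ℝ)) ^ b ≤ ‖z‖ ^ (-(1 / 4) : ℝ) := by
    rw [← Real.rpow_natCast, ← Real.rpow_mul hz0.le]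
    refine Real.rpow_le_rpow_of_exponent_ge hz0 hz1 ?_
    have : (b:ℝ) ≤ 6 := by exact_mod_cast hb
    linarith
  calc _ ≤ (max C 2 * ‖z‖ ^ (-(1 / 24) : ℝ)) ^ b * (max C 2) ^ (6 - b) := h3
    _ = (max C 2) ^ b * (max C 2) ^ (6 - b) * (‖z‖ ^ (-(1 / 24) : ℝ)) ^ b := by
        rw [mul_pow]; ring
    _ = (max C 2) ^ 6 * (‖z‖ ^ (-(1 / 24) : ℝ)) ^ b := by rw [← pow_add, h6]
    _ ≤ _ := mul_le_mul_of_nonneg_left h4 (by positivity)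

/-- The packet FB. -/
theorem thm (kbd : G_KBD) (ibd : G_IBD) (ksm : G_KSM) (sera : G_SERA) (wr : G_WR) : G_FB := by
  obtain ⟨C1, hC1⟩ := ibd
  obtain ⟨C2, hC2⟩ := ksm
  set M : ℝ := max ((max C1 2) ^ 6) ((max C2 2) ^ 6) with hM
  have hM0 : 0 < M := lt_of_lt_of_le (by positivity) (le_max_left ((max C1 2) ^ 6) _)
  refine ⟨M, hM0, fun b hb p hp => ⟨?_, ?_, ?_, ?_⟩⟩
  · exact fun z hz => (diffAt sera wr b p hz).continuousAt.continuousWithinAt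
  · exact fun z hz => (diffAt sera wr b p (Qo_Qd hz)).differentiableWithinAt
  · intro z hz hz1
    have hz0 : 0 < ‖z‖ := by linarith
    have h1 := large kbd hC1 hb hz
    have h2 : ‖Kc z‖ ^ b * ‖Ic z‖ ^ (6 - b) * ‖z‖ ^ 3 ≤
        M * Real.exp ((6 - 2 * (b:ℝ)) * z.re) :=
      h1.trans (mul_le_mul_of_nonneg_right (le_max_left _ _) (Real.exp_pos _).le)
    rw [norm_fb, le_div_iff₀ (by positivity)]
    refine le_trans ?_ h2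
    rw [mul_assoc]
    refine mul_le_mul_of_nonneg_left ?_ (by positivity)
    rcases hp with rfl | rfl
    · rw [zpow_one]
      exact le_of_eq (by ring)
    · rw [zpow_neg_one]
      calc ‖z‖⁻¹ * ‖z‖ ^ 2 ≤ 1 * ‖z‖ ^ 2 :=
            mul_le_mul_of_nonneg_right (inv_le_one_of_one_le₀ hz1) (by positivity)
        _ = ‖z‖ ^ 2 := one_mul _
        _ ≤ ‖z‖ ^ 3 := pow_le_pow_right₀ hz1 (by norm_num)
  · intro z hz hz1
    have hz0 : 0 < ‖z‖ := norm_pos_iff.2 hz.2.2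
    have h1 := small (C := C2) (fun z hz h => ⟨(hC2 z hz h).1, (hC2 z hz h).2.2.1⟩) hb hz hz1
    have h2 : ‖Kc z‖ ^ b * ‖Ic z‖ ^ (6 - b) ≤ M * ‖z‖ ^ (-(1 / 4) : ℝ) :=
      h1.trans (mul_le_mul_of_nonneg_right (le_max_right _ _) (by positivity))
    constructor
    · rw [norm_fb, zpow_one]
      have h3 : ‖z‖ ^ (-(1 / 4) : ℝ) * ‖z‖ ≤ 1 := by
        have h4 : ‖z‖ ^ (-(1 / 4) : ℝ) * ‖z‖ = ‖z‖ ^ (3 / 4 : ℝ) := by
          conv_lhs => rw [← Real.rpow_one ‖z‖]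
          rw [← Real.rpow_mul hz0.le, ← Real.rpow_add hz0]
          norm_num
        rw [h4]
        exact Real.rpow_le_one hz0.le hz1 (by norm_num)
      calc _ ≤ M * ‖z‖ ^ (-(1 / 4) : ℝ) * ‖z‖ := mul_le_mul_of_nonneg_right h2 hz0.le
        _ = M * (‖z‖ ^ (-(1 / 4) : ℝ) * ‖z‖) := by ring
        _ ≤ M * 1 := mul_le_mul_of_nonneg_left h3 hM0.le
        _ = M := mul_one _
    · rw [norm_fb, zpow_neg_one]
      have h4 : ‖z‖ ^ (-(1 / 4) : ℝ) * ‖z‖⁻¹ = ‖z‖ ^ (-(5 / 4) : ℝ) := by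
        rw [← Real.rpow_neg_one ‖z‖, ← Real.rpow_add hz0]
        norm_num
      calc _ ≤ M * ‖z‖ ^ (-(1 / 4) : ℝ) * ‖z‖⁻¹ :=
            mul_le_mul_of_nonneg_right h2 (by positivity)
        _ = M * (‖z‖ ^ (-(1 / 4) : ℝ) * ‖z‖⁻¹) := by ring
        _ = _ := by rw [h4]

end Pool.Agent.Helper32.EC.I_FB
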