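import Pool.Agent.Helper38.EC.Goals

/-!
# MP_ecc237_nt, Part I, packet IB
-/

set_option autoImplicit false

open MeasureTheory Filter Topology Set Complex

namespace Pool.Agent.Helper32.EC.I_IB

open EC237 EC237.PI

theorem norm_exp_mul_cos (z : ℂ) (θ : ℝ) :
    ‖Complex.exp (z * (Real.cos θ : ℝ))‖ = Real.exp (z.re * Real.cos θ) := by
  rw [Complex.norm_exp, Complex.re_mul_ofReal]

theorem cont_exp (z : ℂ) : Continuous fun θ : ℝ => Complex.exp (z * (Real.cos θ : ℝ)) := by
  fun_prop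

theorem ib1 (iint : G_IINT) (t : ℝ) : Ic t = (Ib t : ℂ) := by
  rw [iint]
  unfold Ib
  rw [Complex.ofReal_mul, ← intervalIntegral.integral_ofReal]
  congr 1
  refine intervalIntegral.integral_congr fun θ _ => ?_
  push_cast
  rfl

theorem ib2 (iint : G_IINT) (z : ℂ) : ‖Ic z‖ ≤ Ib z.re := by
  rw [iint]
  unfold Ib
  rw [norm_mul, Complex.norm_real, Real.norm_of_nonneg (by positivity)]
  refine mul_le_mul_of_nonneg_left ?_ (by positivity)
  refine (intervalIntegral.norm_integral_le_integral_norm Real.pi_pos.le).trans (le_of_eq ?_)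
  exact intervalIntegral.integral_congr fun θ _ => norm_exp_mul_cos z θ

theorem hasDeriv (iint : G_IINT) (z : ℂ) : HasDerivAt Ic ((1 / Real.pi : ℝ) *
    ∫ θ in (0:ℝ)..Real.pi, ((Real.cos θ : ℝ) : ℂ) * Complex.exp (z * (Real.cos θ : ℝ))) z := by
  have h0 : Ic = fun z => ((1 / Real.pi : ℝ) : ℂ) *
      ∫ θ in (0:ℝ)..Real.pi, Complex.exp (z * (Real.cos θ : ℝ)) := funext iint
  rw [h0]
  refine HasDerivAt.const_mul _ ?_
  have hb : ∀ x ∈ Metric.ball z 1, ∀ θ : ℝ,
      ‖((Real.cos θ : ℝ) : ℂ) * Complex.exp (x * (Real.cos θ : ℝ))‖ ≤ Real.exp (‖z‖ + 1) := by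
    intro x hx θ
    rw [norm_mul, norm_exp_mul_cos, Complex.norm_real, Real.norm_eq_abs]
    have h1 : |Real.cos θ| ≤ 1 := Real.abs_cos_le_one θ
    have h2 : x.re * Real.cos θ ≤ ‖z‖ + 1 := by
      have h3 : ‖x‖ ≤ ‖z‖ + 1 := by
        have h4 : ‖x - z‖ < 1 := by simpa [dist_eq_norm] using hx
        have h5 : ‖x‖ ≤ ‖z‖ + ‖x - z‖ := by
          calc ‖x‖ = ‖z + (x - z)‖ := by ring_nf
            _ ≤ _ := norm_add_le _ _
        linarith
      calc x.re * Real.cos θ ≤ |x.re * Real.cos θ| := le_abs_self _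
        _ = |x.re| * |Real.cos θ| := abs_mul _ _
        _ ≤ ‖x‖ * 1 := mul_le_mul (Complex.abs_re_le_norm x) h1 (abs_nonneg _) (norm_nonneg _)
        _ ≤ ‖z‖ + 1 := by linarith
    calc |Real.cos θ| * Real.exp (x.re * Real.cos θ) ≤ 1 * Real.exp (‖z‖ + 1) :=
          mul_le_mul h1 (Real.exp_le_exp.2 h2) (Real.exp_pos _).le zero_le_one
      _ = _ := one_mul _
  refine (intervalIntegral.hasDerivAt_integral_of_dominated_loc_of_deriv_le
    (F := fun (x : ℂ) (θ : ℝ) => Complex.exp (x * (Real.cos θ : ℝ)))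
    (F' := fun (x : ℂ) (θ : ℝ) => ((Real.cos θ : ℝ) : ℂ) * Complex.exp (x * (Real.cos θ : ℝ)))
    (bound := fun _ => Real.exp (‖z‖ + 1)) (s := Metric.ball z 1)
    (Metric.ball_mem_nhds z one_pos) ?_ ?_ ?_ ?_ ?_ ?_).2
  · exact Eventually.of_forall fun x => (cont_exp x).aestronglyMeasurable
  · exact (cont_exp z).intervalIntegrable _ _
  · exact Continuous.aestronglyMeasurable (by fun_prop)
  · exact Eventually.of_forall fun θ _ x hx => hb x hx θ
  · exact intervalIntegrable_const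
  · refine Eventually.of_forall fun θ _ x _ => ?_
    have h1 : HasDerivAt (fun x : ℂ => x * (Real.cos θ : ℝ)) ((Real.cos θ : ℝ) : ℂ) x := by
      simpa using (hasDerivAt_id x).mul_const ((Real.cos θ : ℝ) : ℂ)
    have h2 := h1.cexp
    rwa [mul_comm] at h2

theorem ib3 (iint : G_IINT) (z : ℂ) : ‖deriv Ic z‖ ≤ Ib z.re := by
  rw [(hasDeriv iint z).deriv]
  unfold Ib
  rw [norm_mul, Complex.norm_real, Real.norm_of_nonneg (by positivity)]
  refine mul_le_mul_of_nonneg_left ?_ (by positivity)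
  refine (intervalIntegral.norm_integral_le_integral_norm Real.pi_pos.le).trans ?_
  refine intervalIntegral.integral_mono_on Real.pi_pos.le ?_ ?_ fun θ _ => ?_
  · exact Continuous.intervalIntegrable (by fun_prop) _ _
  · exact Continuous.intervalIntegrable (by fun_prop) _ _
  · rw [norm_mul, norm_exp_mul_cos, Complex.norm_real, Real.norm_eq_abs]
    calc |Real.cos θ| * Real.exp (z.re * Real.cos θ) ≤ 1 * Real.exp (z.re * Real.cos θ) :=
          mul_le_mul_of_nonneg_right (Real.abs_cos_le_one θ) (Real.exp_pos _).le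
      _ = _ := one_mul _

theorem ib_le_exp {x : ℝ} (hx : 0 ≤ x) : Ib x ≤ Real.exp x := by
  unfold Ib
  have h1 : ∫ θ in (0:ℝ)..Real.pi, Real.exp (x * Real.cos θ) ≤
      ∫ _ in (0:ℝ)..Real.pi, Real.exp x := by
    refine intervalIntegral.integral_mono_on Real.pi_pos.le ?_ ?_ fun θ _ => ?_
    · exact Continuous.intervalIntegrable (by fun_prop) _ _
    · exact intervalIntegrable_const
    · exact Real.exp_le_exp.2 (mul_le_of_le_one_right hx (Real.cos_le_one θ))
  rw [intervalIntegral.integral_const, smul_eq_mul, sub_zero] at h1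
  calc _ ≤ 1 / Real.pi * (Real.pi * Real.exp x) :=
        mul_le_mul_of_nonneg_left h1 (by positivity)
    _ = Real.exp x := by field_simp

theorem ib_le {x : ℝ} (hx : 0 < x) : Ib x ≤ Real.exp x * Real.sqrt (Real.pi / (8 * x)) := by
  have hπ := Real.pi_pos
  set b : ℝ := 2 * x / Real.pi ^ 2 with hb
  have hb0 : 0 < b := by positivity
  have h1 : ∫ θ in (0:ℝ)..Real.pi, Real.exp (x * Real.cos θ) ≤
      ∫ θ in (0:ℝ)..Real.pi, Real.exp x * Real.exp (-b * θ ^ 2) := by
    refine intervalIntegral.integral_mono_on hπ.le ?_ ?_ fun θ hθ => ?_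
    · exact Continuous.intervalIntegrable (by fun_prop) _ _
    · exact Continuous.intervalIntegrable (by fun_prop) _ _
    · rw [← Real.exp_add]
      refine Real.exp_le_exp.2 ?_
      have h2 := Real.cos_le_one_sub_mul_cos_sq (x := θ) (abs_le.2 ⟨by linarith [hθ.1], hθ.2⟩)
      calc x * Real.cos θ ≤ x * (1 - 2 / Real.pi ^ 2 * θ ^ 2) :=
            mul_le_mul_of_nonneg_left h2 hx.le
        _ = x + -b * θ ^ 2 := by rw [hb]; ring
  have h2 : ∫ θ in (0:ℝ)..Real.pi, Real.exp (-b * θ ^ 2) ≤ Real.sqrt (Real.pi / b) / 2 := by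
    rw [← integral_gaussian_Ioi b, intervalIntegral.integral_of_le hπ.le]
    refine setIntegral_mono_set (integrable_exp_neg_mul_sq hb0).integrableOn ?_ ?_
    · exact Eventually.of_forall fun θ => (Real.exp_pos _).le
    · exact LE.le.eventuallyLE Ioc_subset_Ioi_self
  have h3 : Real.sqrt (Real.pi / b) / 2 = Real.pi * Real.sqrt (Real.pi / (8 * x)) := by
    have h4 : Real.pi / b = (2 * Real.pi) ^ 2 * (Real.pi / (8 * x)) := by
      rw [hb]
      field_simp
      ring
    rw [h4, Real.sqrt_mul (by positivity), Real.sqrt_sq (by positivity)]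
    ring
  unfold Ib
  calc 1 / Real.pi * ∫ θ in (0:ℝ)..Real.pi, Real.exp (x * Real.cos θ)
      ≤ 1 / Real.pi * ∫ θ in (0:ℝ)..Real.pi, Real.exp x * Real.exp (-b * θ ^ 2) :=
        mul_le_mul_of_nonneg_left h1 (by positivity)
    _ = 1 / Real.pi * (Real.exp x * ∫ θ in (0:ℝ)..Real.pi, Real.exp (-b * θ ^ 2)) := by
        rw [intervalIntegral.integral_const_mul]
    _ ≤ 1 / Real.pi * (Real.exp x * (Real.pi * Real.sqrt (Real.pi / (8 * x)))) := by
        rw [← h3]
        exact mul_le_mul_of_nonneg_left (mul_le_mul_of_nonneg_left h2 (Real.exp_pos _).le)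
          (by positivity)
    _ = _ := by field_simp

theorem ib4 {x : ℝ} (hx : 0 ≤ x) : Ib x * Real.sqrt (1 + x) ≤ 2 * Real.exp x := by
  have he := Real.exp_pos x
  rcases le_total x 1 with h1 | h1
  · have h2 : Real.sqrt (1 + x) ≤ 2 := by
      rw [Real.sqrt_le_left (by norm_num)]
      linarith
    calc Ib x * Real.sqrt (1 + x) ≤ Real.exp x * Real.sqrt (1 + x) :=
          mul_le_mul_of_nonneg_right (ib_le_exp hx) (Real.sqrt_nonneg _)
      _ ≤ Real.exp x * 2 := mul_le_mul_of_nonneg_left h2 he.le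
      _ = _ := mul_comm _ _
  · have hx0 : 0 < x := by linarith
    have h2 : Real.sqrt (Real.pi / (8 * x)) * Real.sqrt (1 + x) ≤ 2 := by
      rw [← Real.sqrt_mul (by positivity), Real.sqrt_le_left (by norm_num)]
      have h3 := Real.pi_le_four
      rw [div_mul_eq_mul_div, div_le_iff₀ (by positivity)]
      nlinarith [Real.pi_pos]
    calc Ib x * Real.sqrt (1 + x) ≤
          Real.exp x * Real.sqrt (Real.pi / (8 * x)) * Real.sqrt (1 + x) :=
          mul_le_mul_of_nonneg_right (ib_le hx0) (Real.sqrt_nonneg _)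
      _ = Real.exp x * (Real.sqrt (Real.pi / (8 * x)) * Real.sqrt (1 + x)) := by ring
      _ ≤ Real.exp x * 2 := mul_le_mul_of_nonneg_left h2 he.le
      _ = _ := mul_comm _ _

/-- The packet IB. -/
theorem thm (iint : G_IINT) (_ : G_SERA) : G_IB :=
  ⟨ib1 iint, ib2 iint, ib3 iint, fun _ => ib4⟩

end Pool.Agent.Helper32.EC.I_IB
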